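import Pool.Agent.N641.VB.Stm

set_option autoImplicit false

/-!
# Project VB (helper641): RADD, sums of realised types (helper394)
-/

namespace Pool.Agent.N394.VB

open Pool.Agent.N641.VB

variable {M : Type} [AddCommMonoid M]

theorem mprod_am {A B : Type} [BooleanAlgebra A] [BooleanAlgebra B] {mu : A → M} {nu : B → M}
    (hmu : AM mu) (hnu : AM nu) : AM (mprod mu nu) where
  bot := by
    change mu ⊥ + nu ⊥ = 0
    rw [hmu.bot, hnu.bot, add_zero]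
  sup := by
    intro a b h
    obtain ⟨h1, h2⟩ := Prod.disjoint_iff.1 h
    change mu (a.1 ⊔ b.1) + nu (a.2 ⊔ b.2) = (mu a.1 + nu a.2) + (mu b.1 + nu b.2)
    rw [hmu.sup _ _ h1, hnu.sup _ _ h2, add_add_add_comm]

theorem RADD (TRN : S_TRN) : S_RADD := by
  rintro M _ u v ⟨A, iA, mu, a, hmu, rfl⟩ ⟨B, iB, nu, b, hnu, rfl⟩
  refine ⟨A × B, inferInstance, mprod mu nu, (a, b), mprod_am hmu hnu, ?_⟩
  have h1 : ft (mprod mu nu) ((a, ⊥) : A × B) = ft mu a := by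
    refine TRN M A (A × B) mu (mprod mu nu) (fun x => (x, ⊥)) a ?_ ?_ ?_ a le_rfl
    · intro x _ y _
      exact ⟨fun h => ⟨h, le_rfl⟩, fun h => h.1⟩
    · rintro ⟨x, y⟩ ⟨hx, hy⟩
      have hy' : y = ⊥ := le_bot_iff.1 hy
      exact ⟨x, hx, by rw [hy']⟩
    · intro x _
      change mu x + nu ⊥ = mu x
      rw [hnu.bot, add_zero]
  have h2 : ft (mprod mu nu) ((⊥, b) : A × B) = ft nu b := by
    refine TRN M B (A × B) nu (mprod mu nu) (fun x => (⊥, x)) b ?_ ?_ ?_ b le_rfl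
    · intro x _ y _
      exact ⟨fun h => ⟨le_rfl, h⟩, fun h => h.2⟩
    · rintro ⟨x, y⟩ ⟨hx, hy⟩
      have hx' : x = ⊥ := le_bot_iff.1 hx
      exact ⟨y, hy, by rw [hx']⟩
    · intro x _
      change mu ⊥ + nu x = nu x
      rw [hmu.bot, zero_add]
  have h3 : ((a, b) : A × B) = (a, ⊥) ⊔ (⊥, b) := by
    rw [Prod.mk_sup_mk, sup_bot_eq, bot_sup_eq]
  rw [h3, ft_sup (mprod_am hmu hnu), h1, h2]
  exact Prod.disjoint_iff.2 ⟨disjoint_bot_right, disjoint_bot_left⟩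

end Pool.Agent.N394.VB
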