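import Pool.Agent.N641.VB.Stm2

set_option autoImplicit false

/-!
# Project VB (helper641): TRL, translation of formulas (helper394)
-/

namespace Pool.Agent.N394.VB

open FirstOrder FirstOrder.Language Pool.Agent.N641.VB

/-- the terms of the relational language are variables -/
theorem trl_term {M α : Type} (t : (LM M).Term α) : ∃ a, t = Term.var a := by
  cases t with
  | var a => exact ⟨a, rfl⟩
  | func f ts => exact Empty.elim f

/-- substitution of variables in a formula -/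
theorem trl_sub {L : FirstOrder.Language.{0, 0}} {n m k j : ℕ} (φ : L.Formula (Fin n ⊕ Fin m))
    (a : Fin m → (Fin n ⊕ Fin k) ⊕ Fin j) :
    ∃ ρ' : L.BoundedFormula (Fin n ⊕ Fin k) j, ∀ (S : L.Structure ℕ) (p : Fin n → ℕ)
      (v : Fin k → ℕ) (xs : Fin j → ℕ),
      @BoundedFormula.Realize L ℕ S _ _ ρ' (Sum.elim p v) xs ↔
        @Formula.Realize L ℕ S _ φ
          (Sum.elim p fun t => Sum.elim (Sum.elim p v) xs (a t)) := by
  refine ⟨BoundedFormula.relabel (n := j) (k := 0)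
    (Sum.elim (fun i => Sum.inl (Sum.inl i)) a) φ, ?_⟩
  intro S p v xs
  letI := S
  rw [BoundedFormula.realize_relabel]
  unfold Formula.Realize
  have h1 : (Sum.elim (Sum.elim p v) (xs ∘ Fin.castAdd 0) ∘
      Sum.elim (fun i => Sum.inl (Sum.inl i)) a) =
      Sum.elim p (fun t => Sum.elim (Sum.elim p v) xs (a t)) := by
    funext x
    rcases x with i | t
    · rfl
    · rfl
  rw [h1]
  exact iff_of_eq (congrArg _ (Subsingleton.elim _ _))

theorem trl_ind {L : FirstOrder.Language.{0, 0}} {M : Type} {n : ℕ}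
    (φ : L.Formula (Fin n ⊕ Fin 2)) (ψ : M → L.Formula (Fin n ⊕ Fin 1)) {k j : ℕ}
    (ρ : (LM M).BoundedFormula (Fin n ⊕ Fin k) j) :
    ∃ ρ' : L.BoundedFormula (Fin n ⊕ Fin k) j,
      ∀ (S : L.Structure ℕ) (p : Fin n → ℕ) (bo : BooleanAlgebra ℕ) (mu : ℕ → M),
        Dec S p φ ψ bo mu → ∀ (v : Fin k → ℕ) (xs : Fin j → ℕ),
        @BoundedFormula.Realize L ℕ S _ _ ρ' (Sum.elim p v) xs ↔
          @BoundedFormula.Realize (LM M) ℕ (str bo.le mu) _ _ ρ (Sum.elim p v) xs := by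
  induction ρ with
  | falsum =>
    exact ⟨BoundedFormula.falsum, fun S p bo mu _ v xs => Iff.rfl⟩
  | equal t₁ t₂ =>
    obtain ⟨a, rfl⟩ := trl_term t₁
    obtain ⟨b, rfl⟩ := trl_term t₂
    exact ⟨BoundedFormula.equal (Term.var a) (Term.var b), fun S p bo mu _ v xs => Iff.rfl⟩
  | @rel j l R ts =>
    choose a ha using fun i => trl_term (ts i)
    have hts : ts = fun i => Term.var (a i) := funext ha
    subst hts
    cases R with
    | le =>
      obtain ⟨ρ', h⟩ := trl_sub φ a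
      refine ⟨ρ', fun S p bo mu hD v xs => ?_⟩
      rw [h]
      exact hD.le _
    | val c =>
      obtain ⟨ρ', h⟩ := trl_sub (ψ c) a
      refine ⟨ρ', fun S p bo mu hD v xs => ?_⟩
      rw [h]
      exact hD.val c _
  | imp f₁ f₂ ih₁ ih₂ =>
    obtain ⟨ρ₁, h₁⟩ := ih₁
    obtain ⟨ρ₂, h₂⟩ := ih₂
    refine ⟨ρ₁.imp ρ₂, fun S p bo mu hD v xs => ?_⟩
    exact imp_congr (h₁ S p bo mu hD v xs) (h₂ S p bo mu hD v xs)
  | all f ih =>
    obtain ⟨ρ₁, h₁⟩ := ih
    refine ⟨ρ₁.all, fun S p bo mu hD v xs => ?_⟩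
    exact forall_congr' fun x => h₁ S p bo mu hD v (Fin.snoc xs x)

theorem TRL : S_TRL := by
  intro L M n φ ψ k ρ
  obtain ⟨ρ', h⟩ := trl_ind φ ψ ρ
  exact ⟨ρ', fun S p bo mu hD v => h S p bo mu hD v _⟩

end Pool.Agent.N394.VB
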